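import Pool.Agent.Helper8.Kak.DefsC
import Pool.Agent.Helper14.Kak.B0

/-!
# MP_013a6c_an : module B5 (ergodicity of the towers)
-/

open MeasureTheory Set Topology Filter
open scoped symmDiff ENNReal ProbabilityTheory

namespace KakC


/-- number of positions of the `(k+1)`-word `j` that lie in a copy of the `k`-word `i` -/
theorem B5_count {k t i j : ℕ} (hi : i < N k) (hj : j < N (k + 1)) :
    ((Finset.range (h (k + 1))).filter (fun l => pat k t j (l / h k) = i)).card = A k * h k := by
  have hh : h (k + 1) = L k * h k := rfl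
  have hpos := h_pos k
  rw [← Finset.card_range (A k), ← Finset.card_range (h k), ← Finset.card_product]
  rw [Finset.card_range (h k)]
  refine Finset.card_nbij' (fun l => (rnk k t j (l / h k), l % h k))
    (fun p => pos k t j i p.1 * h k + p.2) ?_ ?_ ?_ ?_
  · intro l hl
    have hl' := Finset.mem_filter.1 (Finset.mem_coe.1 hl)
    have h1 : l < L k * h k := by
      rw [← hh]
      exact Finset.mem_range.1 hl'.1
    rw [Finset.mem_coe, Finset.mem_product, Finset.mem_range, Finset.mem_range]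
    exact ⟨rnk_lt hj (Nat.div_lt_of_lt_mul (by rwa [mul_comm])), Nat.mod_lt _ hpos⟩
  · rintro ⟨r, l⟩ hp
    rw [Finset.mem_coe, Finset.mem_product, Finset.mem_range, Finset.mem_range] at hp
    have h1 : pos k t j i r < L k := pos_lt hj hi hp.1
    have hdiv : (pos k t j i r * h k + l) / h k = pos k t j i r := by
      rw [mul_comm, Nat.mul_add_div hpos, Nat.div_eq_of_lt hp.2, add_zero]
    rw [Finset.mem_coe, Finset.mem_filter, Finset.mem_range]
    refine ⟨?_, ?_⟩
    · rw [hh]
      dsimp only at hp ⊢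
      calc pos k t j i r * h k + l < pos k t j i r * h k + h k := by omega
        _ = (pos k t j i r + 1) * h k := by ring
        _ ≤ L k * h k := Nat.mul_le_mul_right _ h1
    · dsimp only
      rw [hdiv, pat_pos hj hi]
  · intro l hl
    have hl' := Finset.mem_filter.1 (Finset.mem_coe.1 hl)
    dsimp only
    have h2 := hl'.2
    rw [← h2, pos_pat_rnk hj, mul_comm, Nat.div_add_mod]
  · rintro ⟨r, l⟩ hp
    rw [Finset.mem_coe, Finset.mem_product, Finset.mem_range, Finset.mem_range] at hp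
    have hdiv : (pos k t j i r * h k + l) / h k = pos k t j i r := by
      rw [mul_comm, Nat.mul_add_div hpos, Nat.div_eq_of_lt hp.2, add_zero]
    dsimp only at hp ⊢
    rw [hdiv, rnk_pos hj hi]
    congr 1
    rw [mul_comm, Nat.mul_add_mod, Nat.mod_eq_of_lt hp.2]

section

variable {X : Type*} [MeasurableSpace X] {t : ℕ → ℕ} {μ : Measure X}
    [IsProbabilityMeasure μ] {T : X → X} {w : ℕ → X → ℕ × ℕ}

/-- finite set of positions of level `k` -/
def B5_Om (k : ℕ) : Finset (ℕ × ℕ) := Finset.range (N k) ×ˢ Finset.range (h k)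

theorem B5_mem (hT : Tower t μ T w) (k : ℕ) (x : X) : w k x ∈ B5_Om k := by
  rw [B5_Om, Finset.mem_product, Finset.mem_range, Finset.mem_range]
  exact ⟨hT.lt1 k x, hT.lt2 k x⟩

theorem B5_decomp (hT : Tower t μ T w) {S : Set X} (hS : MeasurableSet S) (k : ℕ)
    (Q : ℕ × ℕ → Prop) [DecidablePred Q] :
    μ.real (S ∩ {x | Q (w k x)}) = ∑ ω ∈ (B5_Om k).filter Q, μ.real (S ∩ w k ⁻¹' {ω}) := by
  have e : S ∩ {x | Q (w k x)} = ⋃ ω ∈ (B5_Om k).filter Q, S ∩ w k ⁻¹' {ω} := by
    ext x
    simp only [mem_inter_iff, Set.mem_ofPred_eq, mem_iUnion, Finset.mem_filter, exists_prop,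
      mem_preimage, mem_singleton_iff]
    constructor
    · rintro ⟨h1, h2⟩
      exact ⟨w k x, ⟨B5_mem hT k x, h2⟩, h1, rfl⟩
    · rintro ⟨ω, ⟨_, h2⟩, h3, h4⟩
      rw [h4]
      exact ⟨h3, h2⟩
  rw [e, measureReal_biUnion_finset]
  · intro ω _ ω' _ hne
    refine Set.disjoint_left.2 fun x hx hx' => hne ?_
    rw [← hx.2, ← hx'.2]
  · intro ω _
    exact hS.inter (hT.meas k (measurableSet_singleton ω))

theorem B5_law (hT : Tower t μ T w) {k : ℕ} {ω : ℕ × ℕ} (hω : ω ∈ B5_Om k) :
    μ.real (w k ⁻¹' {ω}) = ((N k : ℝ) * h k)⁻¹ := by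
  rw [B5_Om, Finset.mem_product, Finset.mem_range, Finset.mem_range] at hω
  have := hT.law k ω.1 ω.2 hω.1 hω.2
  rw [Measure.real, this]
  simp

/-- one step up in the tower does not decrease the measure of the trace of an invariant set -/
theorem B5_le (hT : Tower t μ T w) {S : Set X} (hS : MeasurableSet S) (hinv : T ⁻¹' S = S)
    {k i l : ℕ} (hl : l + 1 < h k) :
    μ.real (S ∩ w k ⁻¹' {(i, l)}) ≤ μ.real (S ∩ w k ⁻¹' {(i, l + 1)}) := by
  have hm : MeasurableSet (S ∩ w k ⁻¹' {(i, l + 1)}) :=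
    hS.inter (hT.meas k (measurableSet_singleton _))
  have h1 : μ (S ∩ w k ⁻¹' {(i, l)}) ≤ μ (S ∩ w k ⁻¹' {(i, l + 1)}) := by
    rw [← hT.mp.measure_preimage hm.nullMeasurableSet]
    refine measure_mono_ae ?_
    filter_upwards [hT.step k] with x hx
    rintro ⟨h2, h3⟩
    have h3' : w k x = (i, l) := h3
    rw [h3'] at hx
    refine ⟨?_, hx hl⟩
    have : x ∈ T ⁻¹' S := by rw [hinv]; exact h2
    exact this
  exact ENNReal.toReal_mono (measure_ne_top _ _) h1

theorem B5_const (hT : Tower t μ T w) {S : Set X} (hS : MeasurableSet S) (hinv : T ⁻¹' S = S)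
    {k i l : ℕ} (hi : i < N k) (hl : l < h k) :
    μ.real (S ∩ w k ⁻¹' {(i, l)}) = μ.real (S ∩ w k ⁻¹' {(i, 0)}) := by
  induction l with
  | zero => rfl
  | succ l ih =>
    rw [← ih (by omega)]
    have h1 := B5_le hT hS hinv (i := i) hl
    have hinv' : T ⁻¹' Sᶜ = Sᶜ := by rw [preimage_compl, hinv]
    have h2 := B5_le hT hS.compl hinv' (i := i) hl
    have hsplit : ∀ l' < h k, μ.real (S ∩ w k ⁻¹' {(i, l')}) + μ.real (Sᶜ ∩ w k ⁻¹' {(i, l')}) =
        ((N k : ℝ) * h k)⁻¹ := by
      intro l' hl'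
      rw [← B5_law hT (ω := (i, l')) (by
        rw [B5_Om, Finset.mem_product, Finset.mem_range, Finset.mem_range]
        exact ⟨hi, hl'⟩)]
      rw [inter_comm S, inter_comm Sᶜ, ← Set.sdiff_eq]
      exact measureReal_inter_add_sdiff hS
    have h3 := hsplit l (by omega)
    have h4 := hsplit (l + 1) hl
    linarith

theorem B5_indep (hT : Tower t μ T w) {S : Set X} (hS : MeasurableSet S) (hinv : T ⁻¹' S = S)
    {k i : ℕ} (hi : i < N k) :
    (h k : ℝ) * μ.real (S ∩ w k ⁻¹' {(i, 0)}) =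
      (A k * h k : ℕ) * ∑ j ∈ Finset.range (N (k + 1)), μ.real (S ∩ w (k + 1) ⁻¹' {(j, 0)}) := by
  have e1 := B5_decomp hT hS k (fun ω => ω.1 = i)
  have e2 := B5_decomp hT hS (k + 1) (fun ω => pat k (t k) ω.1 (ω.2 / h k) = i)
  have e3 : {x | (w k x).1 = i} =
      {x | pat k (t k) (w (k + 1) x).1 ((w (k + 1) x).2 / h k) = i} := by
    ext x
    simp only [Set.mem_ofPred_eq]
    rw [← hT.proj k x]
    rfl
  rw [e3] at e1
  rw [e1] at e2
  have e4 : ∑ ω ∈ (B5_Om k).filter (fun ω => ω.1 = i), μ.real (S ∩ w k ⁻¹' {ω}) =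
      (h k : ℝ) * μ.real (S ∩ w k ⁻¹' {(i, 0)}) := by
    have : (B5_Om k).filter (fun ω => ω.1 = i) = {i} ×ˢ Finset.range (h k) := by
      ext ω
      rw [B5_Om, Finset.mem_filter, Finset.mem_product, Finset.mem_product, Finset.mem_range,
        Finset.mem_range, Finset.mem_singleton]
      constructor
      · rintro ⟨⟨_, h2⟩, h3⟩
        exact ⟨h3, h2⟩
      · rintro ⟨h3, h2⟩
        exact ⟨⟨by omega, h2⟩, h3⟩
    rw [this, Finset.sum_product, Finset.sum_singleton]
    rw [Finset.sum_congr rfl (g := fun _ => μ.real (S ∩ w k ⁻¹' {(i, 0)}))]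
    · rw [Finset.sum_const, Finset.card_range, nsmul_eq_mul]
    · intro l hl
      exact B5_const hT hS hinv hi (Finset.mem_range.1 hl)
  have e5 : ∑ ω ∈ (B5_Om (k + 1)).filter (fun ω => pat k (t k) ω.1 (ω.2 / h k) = i),
      μ.real (S ∩ w (k + 1) ⁻¹' {ω}) =
      (A k * h k : ℕ) * ∑ j ∈ Finset.range (N (k + 1)), μ.real (S ∩ w (k + 1) ⁻¹' {(j, 0)}) := by
    rw [Finset.sum_filter, B5_Om, Finset.sum_product, Finset.mul_sum]
    refine Finset.sum_congr rfl fun j hj => ?_
    have hj' := Finset.mem_range.1 hj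
    rw [← Finset.sum_filter, Finset.sum_congr rfl
      (g := fun _ => μ.real (S ∩ w (k + 1) ⁻¹' {(j, 0)}))]
    · rw [Finset.sum_const, nsmul_eq_mul, B5_count hi hj']
    · intro l hl
      exact B5_const hT hS hinv hj' (Finset.mem_range.1 (Finset.mem_filter.1 hl).1)
  rw [e4, e5] at e2
  exact e2

/-- an invariant set is independent of the position of level `k` -/
theorem B5_prod (hT : Tower t μ T w) {S : Set X} (hS : MeasurableSet S) (hinv : T ⁻¹' S = S)
    (k : ℕ) {ω : ℕ × ℕ} (hω : ω ∈ B5_Om k) :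
    μ.real (S ∩ w k ⁻¹' {ω}) = μ.real S * μ.real (w k ⁻¹' {ω}) := by
  set c : ℝ := (A k : ℝ) * ∑ j ∈ Finset.range (N (k + 1)), μ.real (S ∩ w (k + 1) ⁻¹' {(j, 0)})
    with hc
  have hh : (0:ℝ) < h k := by exact_mod_cast h_pos k
  have hN : (0:ℝ) < N k := by exact_mod_cast N_pos k
  have h1 : ∀ ω ∈ B5_Om k, μ.real (S ∩ w k ⁻¹' {ω}) = c := by
    intro ω hω
    rw [B5_Om, Finset.mem_product, Finset.mem_range, Finset.mem_range] at hω
    have e := B5_indep hT hS hinv hω.1
    have e2 := B5_const hT hS hinv hω.1 hω.2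
    rw [show w k ⁻¹' {ω} = w k ⁻¹' {(ω.1, ω.2)} by rfl, e2]
    have e3 : (h k : ℝ) * μ.real (S ∩ w k ⁻¹' {(ω.1, 0)}) = h k * c := by
      rw [e, hc]
      push_cast
      ring
    exact mul_left_cancel₀ hh.ne' e3
  have h2 := B5_decomp hT hS k (fun _ => True)
  rw [Finset.filter_true_of_mem (fun _ _ => trivial), Finset.sum_congr rfl h1,
    Finset.sum_const, nsmul_eq_mul] at h2
  have h3 : S ∩ {x : X | True} = S := by
    ext x
    simp
  have h4 : (B5_Om k).card = N k * h k := by
    rw [B5_Om, Finset.card_product, Finset.card_range, Finset.card_range]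
  rw [h3, h4] at h2
  rw [h1 ω hω, B5_law hT hω, h2]
  push_cast
  field_simp

theorem Tower.ergodic {X : Type*} [MeasurableSpace X] {t : ℕ → ℕ} {μ : Measure X}
    [IsProbabilityMeasure μ] {T : X → X} {w : ℕ → X → ℕ × ℕ} (hT : Tower t μ T w) :
    Ergodic T μ := by
  classical
  refine ⟨hT.mp, ⟨fun S hS hinv => ?_⟩⟩
  -- independence of all sets of level `k`
  have hind : ∀ (k : ℕ) (B : Set (ℕ × ℕ)), μ.real (S ∩ w k ⁻¹' B) = μ.real S * μ.real (w k ⁻¹' B) := by
    intro k B
    have h1 := B5_decomp hT hS k (fun ω => ω ∈ B)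
    have h2 := B5_decomp hT MeasurableSet.univ k (fun ω => ω ∈ B)
    have h3 : {x | w k x ∈ B} = w k ⁻¹' B := rfl
    rw [h3] at h1 h2
    rw [univ_inter] at h2
    rw [h1, h2, Finset.mul_sum]
    refine Finset.sum_congr rfl fun ω hω => ?_
    rw [univ_inter]
    exact B5_prod hT hS hinv k (Finset.mem_filter.1 hω).1
  have hkey : ∀ ε : ℝ, 0 < ε → |μ.real S - μ.real S * μ.real S| ≤ 2 * ε := by
    intro ε hε
    obtain ⟨k, B, hB⟩ := hT.gen S hS (ENNReal.ofReal ε) (ENNReal.ofReal_pos.2 hε)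
    set W := w k ⁻¹' B with hW
    have hWm : MeasurableSet W := hT.meas k (Set.to_countable B).measurableSet
    have h0 : μ.real (S ∆ W) ≤ ε := by
      rw [Measure.real]
      exact ENNReal.toReal_le_of_le_ofReal hε.le hB.le
    have h1 : |μ.real S - μ.real (S ∩ W)| ≤ ε := by
      have e1 : μ.real (S ∩ W) + μ.real (S \ W) = μ.real S := measureReal_inter_add_sdiff hWm
      have e2 : μ.real (S \ W) ≤ μ.real (S ∆ W) := by
        refine measureReal_mono ?_
        rw [Set.symmDiff_def]
        exact subset_union_left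
      have e3 : 0 ≤ μ.real (S \ W) := measureReal_nonneg
      rw [abs_le]
      constructor <;> linarith
    have h2 : |μ.real S - μ.real W| ≤ ε := by
      have e1 : μ.real (S ∩ W) + μ.real (S \ W) = μ.real S := measureReal_inter_add_sdiff hWm
      have e1' : μ.real (W ∩ S) + μ.real (W \ S) = μ.real W := measureReal_inter_add_sdiff hS
      rw [inter_comm] at e1'
      have e2 : μ.real (S \ W) ≤ μ.real (S ∆ W) := by
        refine measureReal_mono ?_
        rw [Set.symmDiff_def]
        exact subset_union_left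
      have e2' : μ.real (W \ S) ≤ μ.real (S ∆ W) := by
        refine measureReal_mono ?_
        rw [Set.symmDiff_def]
        exact subset_union_right
      have e3 : 0 ≤ μ.real (S \ W) := measureReal_nonneg
      have e4 : 0 ≤ μ.real (W \ S) := measureReal_nonneg
      rw [abs_le]
      constructor <;> linarith
    have h3 := hind k B
    rw [← hW] at h3
    have h4 : 0 ≤ μ.real S := measureReal_nonneg
    have h5 : μ.real S ≤ 1 := measureReal_le_one
    have h6 : |μ.real S * μ.real W - μ.real S * μ.real S| ≤ ε := by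
      rw [← mul_sub, abs_mul, abs_of_nonneg h4, abs_sub_comm]
      calc μ.real S * |μ.real S - μ.real W| ≤ 1 * ε :=
            mul_le_mul h5 h2 (abs_nonneg _) zero_le_one
        _ = ε := one_mul ε
    rw [h3] at h1
    calc |μ.real S - μ.real S * μ.real S|
        = |(μ.real S - μ.real S * μ.real W) + (μ.real S * μ.real W - μ.real S * μ.real S)| := by
          congr 1
          ring
      _ ≤ |μ.real S - μ.real S * μ.real W| + |μ.real S * μ.real W - μ.real S * μ.real S| :=
          abs_add_le _ _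
      _ ≤ 2 * ε := by linarith
  have hz : μ.real S - μ.real S * μ.real S = 0 := by
    have : |μ.real S - μ.real S * μ.real S| ≤ 0 := by
      refine le_of_forall_pos_le_add fun ε hε => ?_
      have := hkey (ε / 2) (by positivity)
      linarith
    exact abs_eq_zero.1 (le_antisymm this (abs_nonneg _))
  have hz2 : μ.real S * (1 - μ.real S) = 0 := by linarith
  rw [Filter.eventuallyConst_set']
  rcases mul_eq_zero.1 hz2 with h0 | h0
  · left
    rw [Measure.real, ENNReal.toReal_eq_zero_iff] at h0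
    rcases h0 with h0 | h0
    · exact ae_eq_empty.2 h0
    · exact absurd h0 (measure_ne_top _ _)
  · right
    have h1 : μ.real Sᶜ = 0 := by
      rw [probReal_compl_eq_one_sub hS]
      exact h0
    rw [Measure.real, ENNReal.toReal_eq_zero_iff] at h1
    rcases h1 with h1 | h1
    · exact ae_eq_univ.2 h1
    · exact absurd h1 (measure_ne_top _ _)

end

end KakC
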