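import Pool.Agent.Helper8.Kak.DefsC

/-!
# MP_013a6c_an : module C2 (returns)
-/

open MeasureTheory Set Topology Filter
open scoped symmDiff ENNReal ProbabilityTheory

namespace KakC

theorem C2_lt_ret {X : Type*} {T : X → X} {A' : Set X} {x : X} {m : ℕ} :
    m < ret T A' x ↔ (∃ n, 0 < n ∧ T^[n] x ∈ A') ∧ ∀ i, 0 < i → i ≤ m → T^[i] x ∉ A' := by
  constructor
  · intro h
    have hne : {n | 0 < n ∧ T^[n] x ∈ A'}.Nonempty := by
      by_contra hc
      rw [Set.not_nonempty_iff_eq_empty] at hc
      unfold ret at h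
      rw [hc, Nat.sInf_empty] at h
      omega
    refine ⟨hne, fun i hi him hx => ?_⟩
    have : ret T A' x ≤ i := Nat.sInf_le ⟨hi, hx⟩
    omega
  · rintro ⟨hne, h⟩
    have hmem : ret T A' x ∈ {n | 0 < n ∧ T^[n] x ∈ A'} := Nat.sInf_mem hne
    by_contra hc
    exact h _ hmem.1 (not_lt.1 hc) hmem.2

theorem measurable_ret {X : Type*} [MeasurableSpace X] {T : X → X} (hT : Measurable T)
    {A' : Set X} (hA : MeasurableSet A') : Measurable (ret T A') := by
  refine measurable_of_Ioi fun m => ?_
  have e : ret T A' ⁻¹' Ioi m = (⋃ n : ℕ, ⋃ _ : 0 < n, T^[n] ⁻¹' A') ∩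
      ⋂ i : ℕ, ⋂ _ : 0 < i, ⋂ _ : i ≤ m, (T^[i] ⁻¹' A')ᶜ := by
    ext x
    simp only [mem_preimage, mem_Ioi, C2_lt_ret, mem_inter_iff, mem_iUnion, mem_iInter,
      mem_compl_iff, exists_prop]
  rw [e]
  refine MeasurableSet.inter ?_ ?_
  · exact MeasurableSet.iUnion fun n => MeasurableSet.iUnion fun _ => (hT.iterate n) hA
  · exact MeasurableSet.iInter fun i => MeasurableSet.iInter fun _ => MeasurableSet.iInter fun _ =>
      ((hT.iterate i) hA).compl

theorem ae_returns {X : Type*} [MeasurableSpace X] {μ : Measure X} [IsProbabilityMeasure μ]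
    {T : X → X} (hT : MeasurePreserving T μ μ) {A' : Set X} (hA : MeasurableSet A') :
    ∀ᵐ x ∂μ, x ∈ A' → ∃ n, 0 < n ∧ T^[n] x ∈ A' := by
  filter_upwards [hT.conservative.ae_mem_imp_frequently_image_mem hA.nullMeasurableSet] with x hx hxA
  obtain ⟨n, hn, hn2⟩ := (frequently_atTop.1 (hx hxA)) 1
  exact ⟨n, hn, hn2⟩

/-- points that do not visit `A'` at the times `< m` -/
def C2_E {X : Type*} (T : X → X) (A' : Set X) (m : ℕ) : Set X := {x | ∀ i < m, T^[i] x ∉ A'}

theorem C2_measE {X : Type*} [MeasurableSpace X] {T : X → X} (hT : Measurable T)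
    {A' : Set X} (hA : MeasurableSet A') (m : ℕ) : MeasurableSet (C2_E T A' m) := by
  have e : C2_E T A' m = ⋂ i : ℕ, ⋂ _ : i < m, (T^[i] ⁻¹' A')ᶜ := by
    ext x
    simp only [C2_E, Set.mem_ofPred_eq, mem_iInter, mem_compl_iff, mem_preimage]
  rw [e]
  exact MeasurableSet.iInter fun i => MeasurableSet.iInter fun _ => ((hT.iterate i) hA).compl

theorem C2_split {X : Type*} [MeasurableSpace X] {μ : Measure X} [IsProbabilityMeasure μ]
    {T : X → X} (hT : MeasurePreserving T μ μ) {A' : Set X} (hA : MeasurableSet A') (m : ℕ) :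
    μ (C2_E T A' m) = μ (C2_E T A' (m + 1)) + μ (A' ∩ T ⁻¹' C2_E T A' m) := by
  have hE := C2_measE hT.measurable hA m
  have hpre : MeasurableSet (T ⁻¹' C2_E T A' m) := hT.measurable hE
  rw [← hT.measure_preimage hE.nullMeasurableSet,
    ← measure_inter_add_sdiff (T ⁻¹' C2_E T A' m) hA, add_comm, inter_comm]
  congr 2
  ext x
  simp only [C2_E, Set.mem_sdiff, Set.mem_preimage, Set.mem_ofPred_eq]
  constructor
  · rintro ⟨h1, h2⟩ i hi
    rcases i with _ | i
    · exact h2
    · rw [Function.iterate_succ_apply]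
      exact h1 i (by omega)
  · intro h
    refine ⟨fun i hi => ?_, h 0 (by omega)⟩
    have := h (i + 1) (by omega)
    rwa [Function.iterate_succ_apply] at this

theorem C2_sum {X : Type*} [MeasurableSpace X] {μ : Measure X} [IsProbabilityMeasure μ]
    {T : X → X} (hT : MeasurePreserving T μ μ) {A' : Set X} (hA : MeasurableSet A') (K : ℕ) :
    ∑ m ∈ Finset.range K, μ (A' ∩ T ⁻¹' C2_E T A' m) + μ (C2_E T A' K) = 1 := by
  induction K with
  | zero =>
    have : C2_E T A' 0 = univ := by
      ext x
      simp [C2_E]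
    rw [Finset.sum_range_zero, zero_add, this, measure_univ]
  | succ K ih =>
    rw [Finset.sum_range_succ, add_assoc, add_comm (μ (A' ∩ T ⁻¹' C2_E T A' K)),
      ← C2_split hT hA K, ih]

theorem lintegral_ret {X : Type*} [MeasurableSpace X] {μ : Measure X} [IsProbabilityMeasure μ]
    {T : X → X} (hT : MeasurePreserving T μ μ) {A' : Set X} (hA : MeasurableSet A') :
    ∫⁻ x in A', (ret T A' x : ℝ≥0∞) ∂μ ≤ 1 := by
  have hret := measurable_ret hT.measurable hA
  have e1 : ∀ x, (ret T A' x : ℝ≥0∞) = ∑' m : ℕ, (ret T A' ⁻¹' Ioi m).indicator 1 x := by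
    intro x
    rw [tsum_eq_sum (s := Finset.range (ret T A' x))]
    · rw [Finset.sum_congr rfl (g := fun _ => (1 : ℝ≥0∞))]
      · simp
      · intro m hm
        rw [indicator_of_mem]
        · rfl
        · exact Finset.mem_range.1 hm
    · intro m hm
      rw [indicator_of_notMem]
      intro h
      exact hm (Finset.mem_range.2 h)
  have hms : ∀ m, MeasurableSet (ret T A' ⁻¹' Ioi m) := fun m => hret measurableSet_Ioi
  calc ∫⁻ x in A', (ret T A' x : ℝ≥0∞) ∂μ
      = ∑' m : ℕ, ∫⁻ x in A', (ret T A' ⁻¹' Ioi m).indicator 1 x ∂μ := by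
        simp_rw [e1]
        rw [lintegral_tsum]
        intro m
        exact (measurable_one.indicator (hms m)).aemeasurable
    _ = ∑' m : ℕ, μ (ret T A' ⁻¹' Ioi m ∩ A') := by
        congr 1
        funext m
        rw [lintegral_indicator_one (hms m), Measure.restrict_apply (hms m)]
    _ ≤ ∑' m : ℕ, μ (A' ∩ T ⁻¹' C2_E T A' m) := by
        refine ENNReal.tsum_le_tsum fun m => measure_mono ?_
        rintro x ⟨h1, h2⟩
        refine ⟨h2, fun i hi => ?_⟩
        have h3 := (C2_lt_ret.1 h1).2 (i + 1) (by omega) (by omega)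
        rwa [Function.iterate_succ_apply] at h3
    _ ≤ 1 := by
        refine ENNReal.tsum_le_of_sum_range_le fun K => ?_
        rw [← C2_sum hT hA K]
        exact le_self_add

open Classical in
theorem C2_visits_measurable {X : Type*} [MeasurableSpace X] {S : X → X} (hS : Measurable S)
    {A' : Set X} (hA : MeasurableSet A') (n' : ℕ) : Measurable (fun x => visits S A' x n') := by
  have e : (fun x => visits S A' x n') =
      fun x => ∑ s ∈ Finset.range n', (S^[s] ⁻¹' A').indicator (fun _ => (1 : ℕ)) x := by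
    funext x
    unfold visits
    rw [Finset.card_filter]
    refine Finset.sum_congr rfl fun s _ => ?_
    rw [indicator_apply]
    rfl
  rw [e]
  exact Finset.measurable_sum _ fun s _ => measurable_const.indicator ((hS.iterate s) hA)

theorem few_visits {X : Type*} [MeasurableSpace X] {μ : Measure X} [IsProbabilityMeasure μ]
    {S : X → X} (hS : MeasurePreserving S μ μ) {A' : Set X} (hA : MeasurableSet A') (n n' : ℕ) :
    (n' : ℝ≥0∞) * μ {x | x ∈ A' ∧ visits S A' x n' < n} ≤ n := by
  classical
  set E : Set X := {x | x ∈ A' ∧ visits S A' x n' < n} with hEdef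
  have hE : MeasurableSet E := by
    have : E = A' ∩ (fun x => visits S A' x n') ⁻¹' Iio n := by
      ext x
      rfl
    rw [this]
    exact hA.inter (C2_visits_measurable hS.measurable hA n' measurableSet_Iio)
  have hcount : ∀ y, (((Finset.range n').filter (fun s => S^[s] y ∈ E)).card : ℕ) ≤ n := by
    intro y
    by_cases hne : ((Finset.range n').filter (fun s => S^[s] y ∈ E)).Nonempty
    · set F := (Finset.range n').filter (fun s => S^[s] y ∈ E) with hF
      set s0 := F.min' hne with hs0
      have hs0F : s0 ∈ F := F.min'_mem hne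
      have h1 : S^[s0] y ∈ E := (Finset.mem_filter.1 hs0F).2
      have h2 : visits S A' (S^[s0] y) n' < n := h1.2
      have h3 : F.card ≤ visits S A' (S^[s0] y) n' := by
        unfold visits
        refine Finset.card_le_card_of_injOn (fun s => s - s0) ?_ ?_
        · intro s hs
          have hs' : s ∈ F := hs
          have hsn : s < n' := Finset.mem_range.1 (Finset.mem_filter.1 hs').1
          have hle : s0 ≤ s := F.min'_le s hs'
          rw [Finset.mem_coe, Finset.mem_filter, Finset.mem_range]
          refine ⟨lt_of_le_of_lt (Nat.sub_le s s0) hsn, ?_⟩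
          rw [← Function.iterate_add_apply, Nat.sub_add_cancel hle]
          exact (Finset.mem_filter.1 hs').2.1
        · intro s hs s' hs' hss
          have hle : s0 ≤ s := F.min'_le s hs
          have hle' : s0 ≤ s' := F.min'_le s' hs'
          dsimp only at hss
          omega
      omega
    · rw [Finset.not_nonempty_iff_eq_empty.1 hne]
      simp
  have h1 : ∀ s, μ E = ∫⁻ y, (S^[s] ⁻¹' E).indicator 1 y ∂μ := by
    intro s
    have hm : MeasurableSet (S^[s] ⁻¹' E) := (hS.measurable.iterate s) hE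
    rw [lintegral_indicator_one hm, (hS.iterate s).measure_preimage hE.nullMeasurableSet]
  calc (n' : ℝ≥0∞) * μ E = ∑ s ∈ Finset.range n', μ E := by
        rw [Finset.sum_const, Finset.card_range, nsmul_eq_mul]
    _ = ∑ s ∈ Finset.range n', ∫⁻ y, (S^[s] ⁻¹' E).indicator 1 y ∂μ :=
        Finset.sum_congr rfl fun s _ => h1 s
    _ = ∫⁻ y, ∑ s ∈ Finset.range n', (S^[s] ⁻¹' E).indicator 1 y ∂μ := by
        rw [lintegral_finsetSum]
        intro s _
        exact measurable_one.indicator ((hS.measurable.iterate s) hE)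
    _ ≤ ∫⁻ _, (n : ℝ≥0∞) ∂μ := by
        refine lintegral_mono fun y => ?_
        have : ∑ s ∈ Finset.range n', (S^[s] ⁻¹' E).indicator (1 : X → ℝ≥0∞) y =
            (((Finset.range n').filter (fun s => S^[s] y ∈ E)).card : ℝ≥0∞) := by
          rw [Finset.card_filter, Nat.cast_sum]
          refine Finset.sum_congr rfl fun s _ => ?_
          rw [indicator_apply]
          by_cases hc : S^[s] y ∈ E
          · rw [if_pos hc, if_pos (show y ∈ S^[s] ⁻¹' E from hc)]
            simp
          · rw [if_neg hc, if_neg (show y ∉ S^[s] ⁻¹' E from hc)]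
            simp
        rw [this]
        exact Nat.cast_le.2 (hcount y)
    _ = n := by rw [lintegral_const, measure_univ, mul_one]

end KakC
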